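import Pool.Agent.H83.X.T1

/-!
# Row REA of the board x83 (helper83, MP_c59857_nt)

A trigonometric polynomial which is real on one generic orbit is real.
-/

set_option autoImplicit false

open MeasureTheory ProbabilityTheory Filter Topology Finset
open scoped Nat ENNReal

namespace Pool.Agent.H1.X

open Pool.Agent.H83.X
open Pool.Agent.H24.AG (ee)

theorem conj_ee (t : ℝ) : (starRingEnd ℂ) (ee t) = ee (-t) := by
  unfold ee
  rw [← Complex.exp_conj]
  congr 1
  simp only [map_mul, Complex.conj_ofReal, Complex.conj_I, map_ofNat]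
  push_cast
  ring

theorem norm_ee (t : ℝ) : ‖ee t‖ = 1 := by
  unfold ee
  rw [show 2 * (Real.pi : ℂ) * Complex.I * (t : ℂ) = ((2 * Real.pi * t : ℝ) : ℂ) * Complex.I by
    push_cast; ring]
  exact Complex.norm_exp_ofReal_mul_I _

theorem ev_eq {a : ℕ} (α : Fin a → ℝ) (n : ℕ) (x : AddMonoidAlgebra ℂ (Fin a → ℤ)) :
    ev α n x = ∑ k ∈ x.coeff.support, x.coeff k * ee (n * ∑ i, (k i : ℝ) * α i) := by
  unfold ev
  rw [AddMonoidAlgebra.lift_apply]
  unfold Finsupp.sum
  exact Finset.sum_congr rfl fun k _ => rfl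

theorem ev_single {a : ℕ} (α : Fin a → ℝ) (n : ℕ) (k : Fin a → ℤ) :
    ev α n (AddMonoidAlgebra.single k 1) = ee (n * ∑ i, (k i : ℝ) * α i) := by
  unfold ev
  rw [AddMonoidAlgebra.lift_single, one_smul]
  rfl

theorem neg_sum {a : ℕ} (α : Fin a → ℝ) (n : ℕ) (k : Fin a → ℤ) :
    (n : ℝ) * ∑ i, (((-k) i : ℤ) : ℝ) * α i = -((n : ℝ) * ∑ i, (k i : ℝ) * α i) := by
  rw [← mul_neg, ← Finset.sum_neg_distrib]
  congr 1
  refine Finset.sum_congr rfl fun i _ => ?_
  rw [Pi.neg_apply]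
  push_cast
  ring

/-- the mean with a character is the coefficient -/
theorem mean_coeff (h : T_MTV) {a : ℕ} (α : Fin a → ℝ) (x : AddMonoidAlgebra ℂ (Fin a → ℤ))
    (hα : Ind α) (k : Fin a → ℤ) :
    Tendsto (fun N : ℕ => (∑ n ∈ range N, ev α n x * ee (-(n * ∑ i, (k i : ℝ) * α i))) / N) atTop
      (𝓝 (x.coeff k)) := by
  have h1 := h a α (x * AddMonoidAlgebra.single (-k) 1) hα
  rw [AddMonoidAlgebra.coeff_mul_single_apply, mul_one] at h1
  have h2 : (0 : Fin a → ℤ) + - -k = k := by simp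
  have h3 : ∀ N : ℕ, (∑ n ∈ range N, ev α n (x * AddMonoidAlgebra.single (-k) 1)) =
      ∑ n ∈ range N, ev α n x * ee (-(n * ∑ i, (k i : ℝ) * α i)) := by
    intro N
    refine Finset.sum_congr rfl fun n _ => ?_
    rw [map_mul, ev_single, neg_sum]
  simp only [h3] at h1
  rwa [h2] at h1

theorem coeff_neg (h : T_MTV) {a : ℕ} (α : Fin a → ℝ) (x : AddMonoidAlgebra ℂ (Fin a → ℤ))
    (hα : Ind α) (hr : ∀ n : ℕ, (ev α n x).im = 0) (k : Fin a → ℤ) :
    x.coeff (-k) = (starRingEnd ℂ) (x.coeff k) := by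
  have h1 := mean_coeff h α x hα (-k)
  have h2 := (Complex.continuous_conj.tendsto _).comp (mean_coeff h α x hα k)
  refine tendsto_nhds_unique h1 (h2.congr fun N => ?_)
  show (starRingEnd ℂ) ((∑ n ∈ range N, ev α n x * ee (-(n * ∑ i, (k i : ℝ) * α i))) / N) = _
  rw [map_div₀, map_sum, Complex.conj_natCast]
  congr 1
  refine Finset.sum_congr rfl fun n _ => ?_
  rw [map_mul, conj_ee, Complex.conj_eq_iff_im.mpr (hr n), neg_sum]

theorem pf_REA (h : T_MTV) : T_REA := by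
  intro a α α' x hα hr n
  rw [← Complex.conj_eq_iff_im, ev_eq, map_sum]
  have hk := coeff_neg h α x hα hr
  refine Finset.sum_nbij' (fun k => -k) (fun k => -k) ?_ ?_ ?_ ?_ ?_
  · intro k hk1
    rw [Finsupp.mem_support_iff] at hk1 ⊢
    rw [hk k]
    exact (map_ne_zero _).mpr hk1
  · intro k hk1
    rw [Finsupp.mem_support_iff] at hk1 ⊢
    rw [hk k]
    exact (map_ne_zero _).mpr hk1
  · intro k _
    exact neg_neg k
  · intro k _
    exact neg_neg k
  · intro k _
    rw [map_mul, conj_ee, hk k, neg_sum]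

end Pool.Agent.H1.X
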