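import Pool.Agent.H83.X.T1
import Pool.Agent.H1.X.REA

/-!
# Row CLP of the board x83 (helper83, MP_c59857_nt)

A trigonometric polynomial with values in the unit interval on a generic orbit is nearly in it on
the residues.
-/

set_option autoImplicit false

open MeasureTheory ProbabilityTheory Filter Topology Finset
open scoped Nat ENNReal

namespace Pool.Agent.H1.X

open Pool.Agent.H83.X
open Pool.Agent.H24.AG (ee)

theorem norm_ev {a : ℕ} (α : Fin a → ℝ) (n : ℕ) (x : AddMonoidAlgebra ℂ (Fin a → ℤ)) :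
    ‖ev α n x‖ ≤ ∑ k ∈ x.coeff.support, ‖x.coeff k‖ := by
  rw [ev_eq]
  refine (norm_sum_le _ _).trans (Finset.sum_le_sum fun k _ => ?_)
  rw [norm_mul, norm_ee, mul_one]

/-- a real polynomial of a trigonometric polynomial -/
noncomputable def pol {a : ℕ} (q : Polynomial ℝ) (x : AddMonoidAlgebra ℂ (Fin a → ℤ)) :
    AddMonoidAlgebra ℂ (Fin a → ℤ) :=
  Polynomial.aeval x (q.map (algebraMap ℝ ℂ))

theorem ev_pol {a : ℕ} (α : Fin a → ℝ) (n : ℕ) (q : Polynomial ℝ)
    (x : AddMonoidAlgebra ℂ (Fin a → ℤ)) (hx : (ev α n x).im = 0) :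
    ev α n (pol q x) = ((q.eval (ev α n x).re : ℝ) : ℂ) := by
  unfold pol
  rw [← Polynomial.aeval_algHom_apply]
  have h1 : ev α n x = (((ev α n x).re : ℝ) : ℂ) := by
    apply Complex.ext
    · simp
    · simpa using hx
  rw [Polynomial.coe_aeval_eq_eval]
  conv_lhs => rw [h1]
  rw [Polynomial.eval_map, ← Complex.coe_algebraMap, Polynomial.eval₂_at_apply]

theorem pf_CLP (h1 : T_MTV) (h2 : T_REA) : T_CLP := by
  intro a α x η hα hη hx
  have hre : ∀ n : ℕ, (ev α n x).im = 0 := by
    intro n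
    obtain ⟨r, _, hr⟩ := hx n
    rw [hr, Complex.ofReal_im]
  have hle : ∀ n : ℕ, |(ev α n x).re| ≤ 1 := by
    intro n
    obtain ⟨r, hr1, hr⟩ := hx n
    rw [hr, Complex.ofReal_re]
    exact hr1
  set B : ℝ := ∑ k ∈ x.coeff.support, ‖x.coeff k‖ with hB
  have hb : ∀ (α' : Fin a → ℝ) (n : ℕ), (ev α' n x).re ∈ Set.Icc (-B) B := by
    intro α' n
    rw [Set.mem_Icc, ← abs_le]
    exact (Complex.abs_re_le_norm _).trans (norm_ev α' n x)
  obtain ⟨q, hq⟩ := exists_polynomial_near_of_continuousOn (-B) B (fun t => max 0 (|t| - 1))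
    (Continuous.continuousOn (by fun_prop)) (η / 3) (by positivity)
  -- the constant coefficient
  have hc : ((pol q x).coeff 0).re ≤ η / 3 := by
    have h3 := h1 a α (pol q x) hα
    have h4 := (Complex.continuous_re.tendsto _).comp h3
    refine le_of_tendsto h4 (Filter.Eventually.of_forall fun N => ?_)
    show ((∑ n ∈ range N, ev α n (pol q x)) / (N : ℂ)).re ≤ η / 3
    have h5 : (∑ n ∈ range N, ev α n (pol q x)) =
        ((∑ n ∈ range N, q.eval (ev α n x).re : ℝ) : ℂ) := by
      rw [Complex.ofReal_sum]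
      exact Finset.sum_congr rfl fun n _ => ev_pol α n q x (hre n)
    rw [h5, ← Complex.ofReal_natCast, ← Complex.ofReal_div, Complex.ofReal_re]
    rcases Nat.eq_zero_or_pos N with h0 | h0
    · subst h0
      simp
      positivity
    · have hN : (0 : ℝ) < N := by exact_mod_cast h0
      rw [div_le_iff₀ hN]
      have h6 : ∑ n ∈ range N, q.eval (ev α n x).re ≤ ∑ _n ∈ range N, η / 3 := by
        refine Finset.sum_le_sum fun n _ => ?_
        have h7 := hq _ (hb α n)
        have h8 : max 0 (|(ev α n x).re| - 1) = 0 := max_eq_left (by linarith [hle n])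
        simp only [h8, sub_zero] at h7
        exact (le_abs_self _).trans h7.le
      rw [Finset.sum_const, Finset.card_range, nsmul_eq_mul] at h6
      linarith
  refine ⟨{pol q x}, fun P α' hP hF => ?_⟩
  have h3 := hF _ (Finset.mem_singleton_self _)
  have hr' := h2 a α α' x hα hre
  have h5 : (∑ j ∈ range P, ev α' j (pol q x)) =
      ((∑ j ∈ range P, q.eval (ev α' j x).re : ℝ) : ℂ) := by
    rw [Complex.ofReal_sum]
    exact Finset.sum_congr rfl fun n _ => ev_pol α' n q x (hr' n)
  rw [h5, ← Complex.ofReal_natCast, ← Complex.ofReal_div] at h3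
  have h6 : (∑ j ∈ range P, q.eval (ev α' j x).re) / (P : ℝ) ≤ η / 3 := by
    rw [← h3, Complex.ofReal_re] at hc
    exact hc
  have hPr : (0 : ℝ) < P := by exact_mod_cast hP
  rw [div_le_iff₀ hPr] at h6 ⊢
  have h7 : ∑ j ∈ range P, max 0 (|(ev α' j x).re| - 1) ≤
      ∑ j ∈ range P, (q.eval (ev α' j x).re + η / 3) := by
    refine Finset.sum_le_sum fun j _ => ?_
    have h8 := hq _ (hb α' j)
    rw [abs_lt] at h8
    linarith [h8.1]
  rw [Finset.sum_add_distrib, Finset.sum_const, Finset.card_range, nsmul_eq_mul] at h7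
  nlinarith [mul_pos hPr hη]

end Pool.Agent.H1.X
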